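import Pool.Agent.H41.PS.Stm

set_option autoImplicit false

/-! Task EXT of the project PS (helper41), by helper551. -/

namespace Pool.Agent.H551.PS

open Pool.Agent.H41.PS

theorem key_comm (p q : ℕ) : key p q = key q p := by
  unfold key
  show ((p ^^^ q) ^^^ _) = ((q ^^^ p) ^^^ _)
  rw [Nat.xor_comm p q]
  congr 2
  exact Nat.xor_comm _ _

theorem inner_cons (p : ℕ) (K : ℕ → Bool) (q : ℕ) (t : List ℕ) (S : ℕ) :
    inner p K (q :: t) S = @Bool.rec (fun _ => Bool) false
        (inner p K t (S ||| (1 <<< (key p q))))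
        (Nat.beq ((S >>> (key p q)) &&& 1) 0) := by
  have e : inner p K (q :: t) S = fc (fun k => @Bool.rec (fun _ => Bool) false
      (fc (inner p K t) (Nat.lor S (Nat.shiftLeft 1 k)))
      (Nat.beq (Nat.land (Nat.shiftRight S k) 1) 0)) (key p q) := rfl
  rw [e, fc_eq, fc_eq]
  rfl

theorem ext_succ (n Q : ℕ) (l : List ℕ) : ext (n + 1) Q l = @Bool.rec (fun _ => Bool)
    (ext n (Q &&& (Q - 1)) (pos (Q ^^^ (Q &&& (Q - 1))) :: l)) (outer l 0) (Nat.beq Q 0) := by
  have e : ext (n + 1) Q l = @Bool.rec (fun _ => Bool)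
      (fc (fun Q' => fc (fun p => ext n Q' (List.cons p l)) (pos (Nat.xor Q Q')))
        (Nat.land Q (Nat.sub Q 1))) (outer l 0) (Nat.beq Q 0) := rfl
  rw [e, fc_eq, fc_eq]
  rfl

theorem inner_true (p : ℕ) (K : ℕ → Bool) (l : List ℕ) : ∀ S : ℕ, inner p K l S = true →
    ∃ S' : ℕ, K S' = true ∧ (∀ k, S.testBit k = true → S'.testBit k = true) ∧
      ∀ q ∈ l, S'.testBit (key p q) = true ∧ S.testBit (key p q) = false := by
  induction l with
  | nil =>
    intro S h
    exact ⟨S, h, fun k hk => hk, fun q hq => absurd hq List.not_mem_nil⟩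
  | cons q t ih =>
    intro S h
    rw [inner_cons] at h
    cases hb : Nat.beq ((S >>> (key p q)) &&& 1) 0 with
    | false =>
      rw [hb] at h
      exact absurd h Bool.false_ne_true
    | true =>
      rw [hb] at h
      have hb' : (S >>> (key p q)) &&& 1 = 0 := Nat.eq_of_beq_eq_true hb
      have hS : S.testBit (key p q) = false := by
        rw [Nat.testBit, Nat.and_comm, hb']
        rfl
      obtain ⟨S', h1, h2, h3⟩ := ih _ h
      refine ⟨S', h1, fun k hk => h2 k ?_, fun q' hq' => ?_⟩
      · rw [Nat.testBit_or, hk, Bool.true_or]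
      · rcases List.mem_cons.1 hq' with rfl | hq'
        · refine ⟨h2 _ ?_, hS⟩
          rw [Nat.testBit_or, Nat.one_shiftLeft, Nat.testBit_two_pow_self, Bool.or_true]
        · refine ⟨(h3 q' hq').1, ?_⟩
          have := (h3 q' hq').2
          rw [Nat.testBit_or, Bool.or_eq_false_iff] at this
          exact this.1

theorem outer_true (l : List ℕ) : ∀ S : ℕ, outer l S = true →
    (∀ a ∈ l, ∀ b ∈ l, a ≠ b → S.testBit (key a b) = false) ∧
    ∀ a ∈ l, ∀ b ∈ l, ∀ c ∈ l, ∀ d ∈ l, a ≠ b → a ≠ c → a ≠ d → b ≠ c → b ≠ d → c ≠ d →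
      key a b ≠ key c d := by
  induction l with
  | nil =>
    intro S _
    exact ⟨fun a ha => absurd ha List.not_mem_nil, fun a ha => absurd ha List.not_mem_nil⟩
  | cons p t ih =>
    intro S h
    have e : outer (p :: t) S = inner p (outer t) t S := rfl
    rw [e] at h
    obtain ⟨S', h1, h2, h3⟩ := inner_true p (outer t) t S h
    obtain ⟨i1, i2⟩ := ih S' h1
    have hsub : ∀ k, S'.testBit k = false → S.testBit k = false := by
      intro k hk
      by_contra hc
      rw [Bool.not_eq_false] at hc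
      rw [h2 k hc] at hk
      exact absurd hk (by decide)
    refine ⟨?_, ?_⟩
    · intro a ha b hb hab
      rcases List.mem_cons.1 ha with ha' | ha'
      · rcases List.mem_cons.1 hb with hb' | hb'
        · exact absurd (ha'.trans hb'.symm) hab
        · rw [ha']; exact (h3 b hb').2
      · rcases List.mem_cons.1 hb with hb' | hb'
        · rw [hb', key_comm]; exact (h3 a ha').2
        · exact hsub _ (i1 a ha' b hb' hab)
    · intro a ha b hb c hc d hd hab hac had hbc hbd hcd heq
      have hcase : ∀ b ∈ t, ∀ c ∈ t, ∀ d ∈ t, c ≠ d → key p b ≠ key c d := by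
        intro b hb c hc d hd hcd heq
        have h4 := (h3 b hb).1
        rw [heq, i1 c hc d hd hcd] at h4
        exact absurd h4 (by decide)
      have mem_t : ∀ x ∈ p :: t, x ≠ p → x ∈ t := by
        intro x hx hxp
        rcases List.mem_cons.1 hx with h | h
        · exact absurd h hxp
        · exact h
      by_cases h5 : a = p
      · subst h5
        exact hcase b (mem_t b hb (Ne.symm hab)) c (mem_t c hc (Ne.symm hac)) d
          (mem_t d hd (Ne.symm had)) hcd heq
      by_cases h6 : b = p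
      · subst h6
        rw [key_comm] at heq
        exact hcase a (mem_t a ha h5) c (mem_t c hc (Ne.symm hbc)) d
          (mem_t d hd (Ne.symm hbd)) hcd heq
      by_cases h7 : c = p
      · subst h7
        exact hcase d (mem_t d hd (Ne.symm hcd)) a (mem_t a ha h5) b (mem_t b hb h6) hab heq.symm
      by_cases h8 : d = p
      · subst h8
        rw [key_comm c d] at heq
        exact hcase c (mem_t c hc h7) a (mem_t a ha h5) b (mem_t b hb h6) hab heq.symm
      exact i2 a (mem_t a ha h5) b (mem_t b hb h6) c (mem_t c hc h7) d (mem_t d hd h8)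
        hab hac had hbc hbd hcd heq

theorem pos_pow : ∀ i < 1024, pos (2 ^ i) = i := by
  decide +kernel

/-- removal of the lowest bit -/
theorem low (Q : ℕ) (hQ : Q ≠ 0) : ∃ k : ℕ, Q.testBit k = true ∧
    Q ^^^ (Q &&& (Q - 1)) = 2 ^ k ∧
    ∀ x, Q.testBit x = true → x = k ∨ (Q &&& (Q - 1)).testBit x = true := by
  obtain ⟨k, m, ⟨n, hm⟩, hQm⟩ := Nat.exists_eq_two_pow_mul_odd hQ
  have h1 : 0 < 2 ^ k := by positivity
  have e1 : Q - 1 = 2 ^ k * (2 * n) + (2 ^ k - 1) := by
    have : 2 ^ k * (2 * n + 1) = 2 ^ k * (2 * n) + 2 ^ k := by ring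
    rw [hQm, hm, this]
    omega
  have e2 : Q = 2 ^ k * (2 * n + 1) + 0 := by rw [hQm, hm, add_zero]
  have t1 : ∀ j, Q.testBit j = if j < k then (0 : ℕ).testBit j else (2 * n + 1).testBit (j - k) := by
    intro j
    conv_lhs => rw [e2]
    exact Nat.testBit_two_pow_mul_add _ h1 j
  have t2 : ∀ j, (Q - 1).testBit j =
      if j < k then (2 ^ k - 1).testBit j else (2 * n).testBit (j - k) := by
    intro j
    rw [e1]
    exact Nat.testBit_two_pow_mul_add _ (by omega) j
  have t3 : ∀ j, (Q &&& (Q - 1)).testBit j = (decide (j ≠ k) && Q.testBit j) := by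
    intro j
    rw [Nat.testBit_and, t1, t2]
    by_cases hj : j < k
    · simp [hj]
    · rw [if_neg hj, if_neg hj]
      by_cases hjk : j = k
      · subst hjk
        simp
      · obtain ⟨i, hi⟩ : ∃ i, j - k = i + 1 := ⟨j - k - 1, by omega⟩
        rw [hi]
        have a1 : (2 * n + 1).testBit (i + 1) = n.testBit i := by
          rw [Nat.testBit_succ]
          congr 1
          omega
        have a2 : (2 * n).testBit (i + 1) = n.testBit i := by
          rw [Nat.testBit_succ]
          congr 1
          omega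
        rw [a1, a2, Bool.and_self]
        simp [hjk]
  refine ⟨k, ?_, ?_, ?_⟩
  · rw [t1]
    simp
  · apply Nat.eq_of_testBit_eq
    intro j
    rw [Nat.testBit_xor, t3, Nat.testBit_two_pow]
    by_cases hjk : j = k
    · subst hjk
      rw [t1]
      simp
    · have : k ≠ j := fun h => hjk h.symm
      simp [hjk, this]
  · intro x hx
    by_cases hxk : x = k
    · exact Or.inl hxk
    · right
      rw [t3, hx]
      simp [hxk]

theorem ext_true (fuel : ℕ) : ∀ (Q : ℕ) (l : List ℕ), Q < 2 ^ 1024 → ext fuel Q l = true →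
    ∃ L : List ℕ, outer L 0 = true ∧ (∀ x, Q.testBit x = true → x ∈ L) ∧ ∀ x ∈ l, x ∈ L := by
  induction fuel with
  | zero =>
    intro Q l _ h
    exact absurd h (by simp [ext])
  | succ n ih =>
    intro Q l hQ h
    rw [ext_succ] at h
    cases hb : Nat.beq Q 0 with
    | true =>
      rw [hb] at h
      have hQ0 : Q = 0 := Nat.eq_of_beq_eq_true hb
      refine ⟨l, h, fun x hx => ?_, fun x hx => hx⟩
      rw [hQ0, Nat.zero_testBit] at hx
      exact absurd hx (by decide)
    | false =>
      rw [hb] at h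
      have hQ0 : Q ≠ 0 := by
        intro h0
        rw [h0] at hb
        exact absurd hb (by decide)
      obtain ⟨k, h1, h2, h3⟩ := low Q hQ0
      have hk : k < 1024 := by
        by_contra hc
        push Not at hc
        have : Q.testBit k = false :=
          Nat.testBit_lt_two_pow (hQ.trans_le (Nat.pow_le_pow_right (by norm_num) hc))
        rw [this] at h1
        exact absurd h1 (by decide)
      obtain ⟨L, g1, g2, g3⟩ := ih _ _ (lt_of_le_of_lt Nat.and_le_left hQ) h
      refine ⟨L, g1, fun x hx => ?_, fun x hx => g3 x (List.mem_cons_of_mem _ hx)⟩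
      rcases h3 x hx with rfl | h4
      · have h5 := g3 (pos (Q ^^^ (Q &&& (Q - 1)))) List.mem_cons_self
        rwa [h2, pos_pow x hk] at h5
      · exact g2 x h4

/-- equal keys -/
theorem key_eq (a b c d : ℕ) (h1 : a ^^^ b = c ^^^ d)
    (h2 : (F.testBit a ^^ F.testBit b) = (F.testBit c ^^ F.testBit d)) : key a b = key c d := by
  have t : ∀ p : ℕ, (F >>> p) &&& 1 = (F.testBit p).toNat := by
    intro p
    rw [Nat.and_one_is_mod, Nat.toNat_testBit, Nat.shiftRight_eq_div_pow]
  have e : ∀ p q : ℕ, key p q = (p ^^^ q) ^^^ ((F.testBit p ^^ F.testBit q).toNat <<< 10) := by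
    intro p q
    show (p ^^^ q) ^^^ ((((F >>> p) &&& 1) ^^^ ((F >>> q) &&& 1)) <<< 10) = _
    rw [t, t]
    cases F.testBit p <;> cases F.testBit q <;> rfl
  rw [e, e, h1, h2]

/-- EXT -/
theorem t_EXT : S_EXT := by
  intro Q fuel a b c d hQ ha hb hc hd hab hac had hbc hbd hcd h1 h2
  by_contra hne
  rw [Bool.not_eq_false] at hne
  obtain ⟨L, g1, g2, _⟩ := ext_true fuel Q [] hQ hne
  exact (outer_true L 0 g1).2 a (g2 a ha) b (g2 b hb) c (g2 c hc) d (g2 d hd) hab hac had hbc hbd
    hcd (key_eq a b c d h1 h2)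

end Pool.Agent.H551.PS
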